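import Pool.Agent.H8.AV3.Stmts3

/-!
# AV3B, module WCT: the main counting argument
-/

set_option autoImplicit false

namespace Pool.Agent.H15.AV3B

open Polynomial Matrix Pool.AVR Pool.AV3

section Aux

variable {F : Type} [Field F]

theorem card_adj [Finite F] {M : F[X]} (hM : M.Monic) :
    Finite (AdjoinRoot M) ∧ Nat.card (AdjoinRoot M) = Nat.card F ^ M.natDegree := by
  have : Module.Finite F (AdjoinRoot M) := (AdjoinRoot.powerBasis' hM).finite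
  refine ⟨Module.finite_of_finite F, ?_⟩
  rw [Module.natCard_eq_pow_finrank (K := F), (AdjoinRoot.powerBasis' hM).finrank,
    AdjoinRoot.powerBasis'_dim]

theorem one_le_card [Finite F] {M : F[X]} (hM : M.Monic) :
    (1 : ℝ) ≤ (Nat.card (AdjoinRoot M) : ℝ) := by
  rw [(card_adj hM).2]
  have : 1 ≤ Nat.card F ^ M.natDegree := Nat.one_le_pow _ _ Nat.card_pos
  exact_mod_cast this

theorem Bx_nonneg [Finite F] {P : F[X]} (hP : P.Monic) (N : ℕ) (f : F[X] × F[X] × F[X]) :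
    0 ≤ Bx P N f := by
  have h1 := one_le_card hP
  have h2 : (0 : ℝ) ≤ (Nat.card (AdjoinRoot P) : ℝ) - 1 := by linarith
  unfold Bx
  split_ifs
  · exact h2
  · unfold Bw
    refine mul_nonneg h2 ?_
    positivity

/-- Proportional matrices. -/
def propS (F : Type) [Field F] : Setoid (Matrix (Fin 3) (Fin 3) (RatFunc F)) where
  r g g' := ∃ r : RatFunc F, r ≠ 0 ∧ g' = r • g
  iseqv := by
    refine ⟨fun g => ⟨1, one_ne_zero, (one_smul _ g).symm⟩, ?_, ?_⟩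
    · rintro g g' ⟨r, hr, rfl⟩
      refine ⟨r⁻¹, inv_ne_zero hr, ?_⟩
      rw [smul_smul, inv_mul_cancel₀ hr, one_smul]
    · rintro g g' g'' ⟨r, hr, rfl⟩ ⟨s, hs, rfl⟩
      exact ⟨s * r, mul_ne_zero hs hr, by rw [smul_smul]⟩

/-- A representative of the proportionality class. -/
noncomputable def rep (g : Matrix (Fin 3) (Fin 3) (RatFunc F)) :
    Matrix (Fin 3) (Fin 3) (RatFunc F) :=
  Quotient.out (Quotient.mk (propS F) g)

theorem rep_spec (g : Matrix (Fin 3) (Fin 3) (RatFunc F)) :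
    ∃ r : RatFunc F, r ≠ 0 ∧ rep g = r • g := by
  have h : (propS F).r (rep g) g := Quotient.mk_out (s := propS F) g
  exact (propS F).iseqv.symm h

theorem rep_eq {g g' : Matrix (Fin 3) (Fin 3) (RatFunc F)} (h : rep g = rep g') :
    ∃ r : RatFunc F, r ≠ 0 ∧ g' = r • g := by
  obtain ⟨r, hr, h1⟩ := rep_spec g
  obtain ⟨s, hs, h2⟩ := rep_spec g'
  refine ⟨s⁻¹ * r, mul_ne_zero (inv_ne_zero hs) hr, ?_⟩
  rw [mul_smul, ← h1, h, h2, smul_smul, inv_mul_cancel₀ hs, one_smul]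

theorem rep_of {g g' : Matrix (Fin 3) (Fin 3) (RatFunc F)} {r : RatFunc F} (hr : r ≠ 0)
    (h : g' = r • g) : rep g = rep g' := by
  unfold rep
  congr 1
  exact Quotient.sound (s := propS F) ⟨r, hr, h⟩

end Aux

/-- The forms of the class of `c₀`. -/
def VC {F : Type} [Field F] (n α β : ℕ) (f : F[X] × F[X] × F[X]) (c₀ : Fin 10 → F[X]) :
    Set (Fin 10 → F[X]) :=
  {c | c ∈ VJ n (dv α β) f ∧ ∃ g, Eqv g (mp c₀) (mp c)}

/-- The data of a class: local pairs. -/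
structure Dat {F : Type} [Field F] (n N : ℕ) (S : Finset F[X]) (f : F[X] × F[X] × F[X])
    (c₀ : Fin 10 → F[X]) where
  M : {P // P ∈ S} → ℕ
  gg : ∀ P : {P // P ∈ S}, Fin (M P) → Matrix (Fin 3) (Fin 3) (RatFunc F)
  vv : ∀ P : {P // P ∈ S}, Fin (M P) → Fin 3 → RatFunc F
  hKP : ∀ P i, KP3 (AVS.IP P.1) (algebraMap F[X] (RatFunc F) P.1) (mp c₀) (gg P i) (vv P i)
  hne : ∀ P i j, i ≠ j → ¬ Eq3 (AVS.IP P.1) (algebraMap F[X] (RatFunc F) P.1) (gg P i) (vv P i)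
    (gg P j) (vv P j)
  hBx : ∀ P, Bx P.1 N f ≤ ((Nat.card (AdjoinRoot P.1) : ℝ) - 1) * M P
  Mi : ℕ
  gi : Fin Mi → Matrix (Fin 3) (Fin 3) (RatFunc F)
  vi : Fin Mi → Fin 3 → RatFunc F
  hKPi : ∀ i, KP3 (AVS.Iinf F) (RatFunc.X)⁻¹ (((RatFunc.X : RatFunc F) ^ n)⁻¹ • mp c₀)
    (gi i) (vi i)
  hnei : ∀ i j, i ≠ j → ¬ Eq3 (AVS.Iinf F) (RatFunc.X)⁻¹ (gi i) (vi i) (gi j) (vi j)
  hBxi : Bx X N (AVS.finf n f) ≤ ((Nat.card (AdjoinRoot (X : F[X])) : ℝ) - 1) * Mi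

section One

variable {F : Type} [Field F] [Finite F]

theorem dat_exists (hLOP : LOPStmt) (hLOI : LOIStmt) (h2 : (2 : F) ≠ 0) (n N : ℕ)
    (S : Finset F[X]) (f : F[X] × F[X] × F[X]) (hf : f ∈ El F n) (hN : 1 ≤ N)
    (hS : ∀ P ∈ S, P.Monic ∧ Irreducible P) (c₀ : Fin 10 → F[X]) (hc₀ : mp c₀ ∈ SelSet f) :
    Nonempty (Dat n N S f c₀) := by
  have h1 : ∀ P : {P // P ∈ S}, ∃ (M : ℕ)
      (g : Fin M → Matrix (Fin 3) (Fin 3) (RatFunc F)) (v : Fin M → Fin 3 → RatFunc F),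
      (∀ i, KP3 (AVS.IP P.1) (algebraMap F[X] (RatFunc F) P.1) (mp c₀) (g i) (v i)) ∧
      (∀ i j, i ≠ j → ¬ Eq3 (AVS.IP P.1) (algebraMap F[X] (RatFunc F) P.1) (g i) (v i)
        (g j) (v j)) ∧ Bx P.1 N f ≤ ((Nat.card (AdjoinRoot P.1) : ℝ) - 1) * M := by
    intro P
    obtain ⟨M, ⟨g, v, h3, h4⟩, -, h5⟩ := hLOP F h2 f hf.1.2 (mp c₀) hc₀ P.1 (hS _ P.2).1
      (hS _ P.2).2 N hN
    exact ⟨M, g, v, h3, h4, h5⟩
  choose M gg vv hKP hne hBx using h1
  obtain ⟨Mi, ⟨gi, vi, h3, h4⟩, -, h5⟩ := hLOI F h2 n f hf.1 (mp c₀) hc₀ N hN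
  exact ⟨⟨M, gg, vv, hKP, hne, hBx, Mi, gi, vi, h3, h4, h5⟩⟩

end One

section Tuples

variable {F : Type} [Field F] {n N : ℕ} {S : Finset F[X]} {f : F[X] × F[X] × F[X]}
  {c₀ : Fin 10 → F[X]}

/-- A choice of pairs. -/
abbrev Qt (D : Dat n N S f c₀) : Type := (∀ P : {P // P ∈ S}, Fin (D.M P)) × Fin D.Mi

/-- The scalars. -/
abbrev Lt (S : Finset F[X]) : Type :=
  (∀ P : {P // P ∈ S}, {x : AdjoinRoot P.1 // x ≠ 0}) × {x : F // x ≠ 0}

/-- The targets. -/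
abbrev Yt (S : Finset F[X]) : Type :=
  (Fin 10 → F[X]) × ((∀ P : {P // P ∈ S}, Fin 3 → AdjoinRoot P.1) ×
    (Fin 3 → AdjoinRoot (X : F[X])))

open Classical in
/-- The lattices. -/
noncomputable def gP (D : Dat n N S f c₀) (q : Qt D) : F[X] → Matrix (Fin 3) (Fin 3) (RatFunc F) :=
  fun P => if h : P ∈ S then D.gg ⟨P, h⟩ (q.1 ⟨P, h⟩) else 0

open Classical in
/-- The points. -/
noncomputable def vP (D : Dat n N S f c₀) (q : Qt D) : F[X] → Fin 3 → RatFunc F :=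
  fun P => if h : P ∈ S then D.vv ⟨P, h⟩ (q.1 ⟨P, h⟩) else 0

open Classical in
/-- Lifts of the scalars. -/
noncomputable def lf (l : Lt S) : F[X] → F[X] :=
  fun P => if h : P ∈ S then Function.surjInv AdjoinRoot.mk_surjective (l.1 ⟨P, h⟩).1 else 0

theorem gP_eq (D : Dat n N S f c₀) (q : Qt D) (P : {P // P ∈ S}) :
    gP D q P.1 = D.gg P (q.1 P) := by
  unfold gP
  rw [dif_pos P.2]

theorem vP_eq (D : Dat n N S f c₀) (q : Qt D) (P : {P // P ∈ S}) :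
    vP D q P.1 = D.vv P (q.1 P) := by
  unfold vP
  rw [dif_pos P.2]

theorem lf_eq (l : Lt S) (P : {P // P ∈ S}) :
    AdjoinRoot.mk P.1 (lf l P.1) = (l.1 P).1 := by
  unfold lf
  rw [dif_pos P.2]
  exact Function.surjInv_eq _ _

theorem lf_dvd (l : Lt S) (P : {P // P ∈ S}) : ¬ P.1 ∣ lf l P.1 := by
  intro h
  have h1 := AdjoinRoot.mk_eq_zero.mpr h
  rw [lf_eq] at h1
  exact (l.1 P).2 h1

/-- The relation between a tuple and a target. -/
def Rl (D : Dat n N S f c₀) (G : Qt D → Matrix (Fin 3) (Fin 3) (RatFunc F)) (α β : ℕ)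
    (t : (Qt D × Lt S) × Matrix (Fin 3) (Fin 3) F[X]) (y : Yt S) : Prop :=
  y.1 ∈ VC n α β f c₀ ∧
  Eqv (G t.1.1 * t.2.map (algebraMap F[X] (RatFunc F))) (mp c₀) (mp y.1) ∧
  (∀ P : {P // P ∈ S}, ∃ z, Mk (AVS.IP P.1) (algebraMap F[X] (RatFunc F) P.1) (gP D t.1.1 P.1)
      (algebraMap F[X] (RatFunc F) (lf t.1.2 P.1) • vP D t.1.1 P.1)
      (G t.1.1 * t.2.map (algebraMap F[X] (RatFunc F))) z ∧
      rdP P.1 z = y.2.1 P ∧ Good (md P.1 y.1) (y.2.1 P)) ∧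
  ∃ zi, Mk (AVS.Iinf F) (RatFunc.X)⁻¹ (D.gi t.1.1.2)
      (algebraMap F[X] (RatFunc F) (C t.1.2.2.1) • D.vi t.1.1.2)
      (G t.1.1 * t.2.map (algebraMap F[X] (RatFunc F)) * (Dg (dv α β))⁻¹) zi ∧
      rdI zi = y.2.2 ∧ Good (md X (cinf n (dv α β) y.1)) y.2.2

theorem fibre [Finite F] (hFIB : FIBStmt) (hGPR : GPRStmt) (D : Dat n N S f c₀)
    (G : Qt D → Matrix (Fin 3) (Fin 3) (RatFunc F)) (hG0 : ∀ q, (G q).det ≠ 0) (α β : ℕ)
    (hS : ∀ P ∈ S, P.Monic ∧ Irreducible P)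
    (t t' : (Qt D × Lt S) × Matrix (Fin 3) (Fin 3) F[X]) (y : Yt S)
    (ht : Rl D G α β t y) (ht' : Rl D G α β t' y) (hu : IsUnit t.2.det) (hu' : IsUnit t'.2.det)
    (r : RatFunc F) (hr : r ≠ 0)
    (h : G t'.1.1 * t'.2.map (algebraMap F[X] (RatFunc F)) =
      r • (G t.1.1 * t.2.map (algebraMap F[X] (RatFunc F)))) :
    ∃ u : F, u ≠ 0 ∧ t'.1.1 = t.1.1 ∧ t'.2 = C u • t.2 ∧
      (∀ P, (t'.1.2.1 P).1 = AdjoinRoot.mk P.1 (C u) * (t.1.2.1 P).1) ∧
      t'.1.2.2.1 = u * t.1.2.2.1 := by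
  classical
  obtain ⟨⟨q, l⟩, γ⟩ := t
  obtain ⟨⟨q', l'⟩, γ'⟩ := t'
  obtain ⟨-, hE, hm, zi, hmi, hri, -⟩ := ht
  obtain ⟨-, hE', hm', zi', hmi', hri', -⟩ := ht'
  simp only at *
  choose z hz hzr _ using hm
  choose z' hz' hzr' _ using hm'
  set w : F[X] → Fin 3 → RatFunc F := fun P => if h : P ∈ S then z ⟨P, h⟩ else 0 with hw
  set w' : F[X] → Fin 3 → RatFunc F := fun P => if h : P ∈ S then z' ⟨P, h⟩ else 0 with hw'
  have hwe : ∀ P : {P // P ∈ S}, w P.1 = z P := by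
    intro P
    rw [hw]
    simp only
    rw [dif_pos P.2]
  have hwe' : ∀ P : {P // P ∈ S}, w' P.1 = z' P := by
    intro P
    rw [hw']
    simp only
    rw [dif_pos P.2]
  have h1 := hFIB F α β S (gP D q) (gP D q') (vP D q) (vP D q') (D.gi q.2) (D.gi q'.2) (D.vi q.2)
    (D.vi q'.2) (lf l) (lf l') l.2.1 l'.2.1 (G q * γ.map (algebraMap F[X] (RatFunc F)))
    (G q' * γ'.map (algebraMap F[X] (RatFunc F))) r w w' zi zi' hS
    (by
      intro P hP
      have e1 := gP_eq D q ⟨P, hP⟩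
      have e2 := gP_eq D q' ⟨P, hP⟩
      have e3 := vP_eq D q ⟨P, hP⟩
      have k1 := D.hKP ⟨P, hP⟩ (q.1 ⟨P, hP⟩)
      have k2 := D.hKP ⟨P, hP⟩ (q'.1 ⟨P, hP⟩)
      simp only at e1 e2 e3
      rw [e1, e2, e3]
      exact ⟨k1.1, k2.1, lf_dvd l ⟨P, hP⟩, lf_dvd l' ⟨P, hP⟩, k1.2.2.1, k1.2.2.2.1⟩)
    (D.hKPi q.2).1 (D.hKPi q'.2).1 l.2.2 l'.2.2 (D.hKPi q.2).2.2.1 (D.hKPi q.2).2.2.2.1 hr h
    (by
      intro P hP
      have e1 := hwe ⟨P, hP⟩
      have e2 := hwe' ⟨P, hP⟩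
      simp only at e1 e2
      rw [e1, e2]
      exact ⟨hz ⟨P, hP⟩, hz' ⟨P, hP⟩, (hzr ⟨P, hP⟩).trans (hzr' ⟨P, hP⟩).symm⟩)
    hmi hmi' (hri.trans hri'.symm)
  obtain ⟨h3, h4, h5⟩ := h1
  have hq1 : q'.1 = q.1 := by
    funext P
    by_contra hne
    have h6 := h3 P.1 P.2
    rw [gP_eq, gP_eq, vP_eq, vP_eq] at h6
    exact D.hne P _ _ (fun h => hne h.symm) h6
  have hq2 : q'.2 = q.2 := by
    by_contra hne
    exact D.hnei _ _ (fun h => hne h.symm) h4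
  have hq : q' = q := Prod.ext hq1 hq2
  subst hq
  have h6 : γ'.map (algebraMap F[X] (RatFunc F)) = r • γ.map (algebraMap F[X] (RatFunc F)) := by
    have hdet : IsUnit (G q').det := isUnit_iff_ne_zero.mpr (hG0 q')
    have h7 : (G q')⁻¹ * (G q' * γ'.map (algebraMap F[X] (RatFunc F))) =
        (G q')⁻¹ * (r • (G q' * γ.map (algebraMap F[X] (RatFunc F)))) := by rw [h]
    rw [Matrix.mul_smul, ← Matrix.mul_assoc, ← Matrix.mul_assoc,
      Matrix.nonsing_inv_mul _ hdet, Matrix.one_mul, Matrix.one_mul] at h7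
    exact h7
  obtain ⟨u, hu0, hru, hγ⟩ := hGPR F γ γ' hu hu' r h6
  obtain ⟨h7, h8⟩ := h5 u hru rfl rfl rfl rfl
  refine ⟨u, hu0, rfl, hγ, ?_, h8⟩
  intro P
  have h9 := AdjoinRoot.mk_eq_zero.mpr (h7 P.1 P.2)
  rw [map_sub, map_mul, sub_eq_zero, lf_eq, lf_eq] at h9
  exact h9

theorem rep_rep (g : Matrix (Fin 3) (Fin 3) (RatFunc F)) : rep (rep g) = rep g := by
  obtain ⟨r, hr, h⟩ := rep_spec g
  exact (rep_of hr h).symm

/-- The weight of a form. -/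
noncomputable def wt (n α β : ℕ) (S : Finset F[X]) (c : Fin 10 → F[X]) : ℕ :=
  (∏ P ∈ S, gdk (md P c)) * gdk (md X (cinf n (dv α β) c))

open Classical in
/-- The fibres have at most `s (q - 1)` elements. -/
theorem fibre_card [Finite F] (hFIB : FIBStmt) (hGPR : GPRStmt) (D : Dat n N S f c₀)
    (hc₀ : mp c₀ ∈ SelSet f) {s : ℕ} (hst : StB f s)
    (G : Qt D → Matrix (Fin 3) (Fin 3) (RatFunc F)) (hG0 : ∀ q, (G q).det ≠ 0) (α β : ℕ)
    (hS : ∀ P ∈ S, P.Monic ∧ Irreducible P)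
    (T : Finset ((Qt D × Lt S) × Matrix (Fin 3) (Fin 3) F[X])) (y : Yt S)
    (hT : ∀ t ∈ T, Rl D G α β t y) (hu : ∀ t ∈ T, IsUnit t.2.det) :
    T.card ≤ (Nat.card F - 1) * s := by
  have hfin := Fintype.ofFinite F
  rcases T.eq_empty_or_nonempty with h0 | ⟨t0, ht0⟩
  · rw [h0]
    simp
  set H : (Qt D × Lt S) × Matrix (Fin 3) (Fin 3) F[X] → Matrix (Fin 3) (Fin 3) (RatFunc F) :=
    fun t => (G t.1.1 * t.2.map (algebraMap F[X] (RatFunc F))) *
      (G t0.1.1 * t0.2.map (algebraMap F[X] (RatFunc F)))⁻¹ with hH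
  have hEH : ∀ t ∈ T, Eqv (H t) (mp c₀) (mp c₀) := fun t ht =>
    (hT t ht).2.1.trans (hT t0 ht0).2.1.symm
  have hU : (T.image fun t => rep (H t)).card ≤ s := by
    apply hst (mp c₀) hc₀
    · intro g hg
      obtain ⟨t, ht, rfl⟩ := Finset.mem_image.mp hg
      obtain ⟨r, hr, h⟩ := rep_spec (H t)
      rw [h]
      exact (hEH t ht).smul (isUnit_iff_ne_zero.mpr hr)
    · intro g hg g' hg' hne r h
      obtain ⟨t, ht, rfl⟩ := Finset.mem_image.mp hg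
      obtain ⟨t', ht', rfl⟩ := Finset.mem_image.mp hg'
      apply hne
      have hr : r ≠ 0 := by
        rintro rfl
        obtain ⟨r', hr', h'⟩ := rep_spec (H t')
        have h2 := ((hEH t' ht').smul (isUnit_iff_ne_zero.mpr hr')).1
        rw [← h', h, zero_smul, Matrix.det_zero] at h2
        exact not_isUnit_zero h2
      have h3 := rep_of hr h
      rwa [rep_rep, rep_rep] at h3
  refine (Finset.card_le_mul_card_image (f := fun t => rep (H t)) T (Nat.card F - 1) ?_).trans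
    (Nat.mul_le_mul_left _ hU)
  intro g hg
  obtain ⟨t1, ht1, rfl⟩ := Finset.mem_image.mp hg
  have h1 : ∀ t ∈ T.filter (fun t => rep (H t) = rep (H t1)), ∃ u : F, u ≠ 0 ∧ t.1.1 = t1.1.1 ∧
      t.2 = C u • t1.2 ∧ (∀ P, (t.1.2.1 P).1 = AdjoinRoot.mk P.1 (C u) * (t1.1.2.1 P).1) ∧
      t.1.2.2.1 = u * t1.1.2.2.1 := by
    intro t ht
    obtain ⟨ht, hr⟩ := Finset.mem_filter.mp ht
    obtain ⟨r, hr0, h⟩ := rep_eq hr.symm
    have hd : IsUnit (G t0.1.1 * t0.2.map (algebraMap F[X] (RatFunc F))).det := (hT t0 ht0).2.1.1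
    apply fibre hFIB hGPR D G hG0 α β hS t1 t y (hT t1 ht1) (hT t ht) (hu t1 ht1) (hu t ht) r hr0
    have h2 : H t * (G t0.1.1 * t0.2.map (algebraMap F[X] (RatFunc F))) =
        (r • H t1) * (G t0.1.1 * t0.2.map (algebraMap F[X] (RatFunc F))) := by rw [h]
    rw [hH] at h2
    simp only at h2
    rw [Matrix.smul_mul, Matrix.mul_assoc (_ * _), Matrix.mul_assoc (_ * _),
      Matrix.nonsing_inv_mul _ hd, Matrix.mul_one, Matrix.mul_one] at h2
    exact h2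
  choose! u hu0 hq hγ hl hli using h1
  have h2 : (T.filter (fun t => rep (H t) = rep (H t1))).card ≤
      ((Finset.univ : Finset F).erase 0).card := by
    apply Finset.card_le_card_of_injOn u
    · intro t ht
      exact Finset.mem_erase.mpr ⟨hu0 t (by simpa using ht), Finset.mem_univ _⟩
    · intro t ht t' ht' he
      have ht2 : t ∈ T.filter (fun t => rep (H t) = rep (H t1)) := by simpa using ht
      have ht2' : t' ∈ T.filter (fun t => rep (H t) = rep (H t1)) := by simpa using ht'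
      refine Prod.ext (Prod.ext ?_ (Prod.ext ?_ ?_)) ?_
      · rw [hq t ht2, hq t' ht2']
      · funext P
        apply Subtype.ext
        rw [hl t ht2, hl t' ht2', he]
      · apply Subtype.ext
        rw [hli t ht2, hli t' ht2', he]
      · rw [hγ t ht2, hγ t' ht2', he]
  rw [Finset.card_erase_of_mem (Finset.mem_univ _), Finset.card_univ, ← Nat.card_eq_fintype_card]
    at h2
  exact h2

open Classical in
/-- The counting of the tuples of one type. -/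
theorem count [Finite F] (hFIB : FIBStmt) (hGPR : GPRStmt) (D : Dat n N S f c₀)
    (hc₀ : mp c₀ ∈ SelSet f) {s : ℕ} (hst : StB f s)
    (G : Qt D → Matrix (Fin 3) (Fin 3) (RatFunc F)) (hG0 : ∀ q, (G q).det ≠ 0) (α β : ℕ)
    (hS : ∀ P ∈ S, P.Monic ∧ Irreducible P) (hfin : (VC n α β f c₀).Finite)
    (T : Finset ((Qt D × Lt S) × Matrix (Fin 3) (Fin 3) F[X]))
    (hT : ∀ t ∈ T, ∃ y, Rl D G α β t y) (hu : ∀ t ∈ T, IsUnit t.2.det) :
    T.card ≤ (Nat.card F - 1) * s * ∑ᶠ c ∈ VC n α β f c₀, wt n α β S c := by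
  choose! Φ hΦ using hT
  have h1 : T.card ≤ (Nat.card F - 1) * s * (T.image Φ).card := by
    apply Finset.card_le_mul_card_image
    intro y _
    apply fibre_card hFIB hGPR D hc₀ hst G hG0 α β hS _ y
    · intro t ht
      obtain ⟨ht1, ht2⟩ := Finset.mem_filter.mp ht
      rw [← ht2]
      exact hΦ t ht1
    · intro t ht
      exact hu t (Finset.mem_filter.mp ht).1
  refine h1.trans (Nat.mul_le_mul_left _ ?_)
  have hfA : ∀ P : {P // P ∈ S}, Finite (Fin 3 → AdjoinRoot P.1) := fun P => by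
    have := (card_adj (hS P.1 P.2).1).1
    infer_instance
  have hfX : Finite (Fin 3 → AdjoinRoot (X : F[X])) := by
    have := (card_adj (monic_X (R := F))).1
    infer_instance
  have h2 : T.image Φ ⊆ hfin.toFinset.biUnion (fun c => ({c} : Finset (Fin 10 → F[X])) ×ˢ
      ((Fintype.piFinset fun P : {P // P ∈ S} =>
        (Set.toFinite {v | Good (md P.1 c) v}).toFinset) ×ˢ
        (Set.toFinite {v | Good (md X (cinf n (dv α β) c)) v}).toFinset)) := by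
    intro y hy
    obtain ⟨t, ht, rfl⟩ := Finset.mem_image.mp hy
    obtain ⟨k1, -, k2, zi, -, -, k3⟩ := hΦ t ht
    rw [Finset.mem_biUnion]
    refine ⟨(Φ t).1, hfin.mem_toFinset.mpr k1, ?_⟩
    rw [Finset.mem_product, Finset.mem_product, Fintype.mem_piFinset]
    refine ⟨Finset.mem_singleton_self _, ?_, ?_⟩
    · intro P
      obtain ⟨z, -, -, k4⟩ := k2 P
      rw [Set.Finite.mem_toFinset]
      exact k4
    · rw [Set.Finite.mem_toFinset]
      exact k3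
  refine (Finset.card_le_card h2).trans (Finset.card_biUnion_le.trans ?_)
  rw [finsum_mem_eq_finite_toFinset_sum _ hfin]
  apply Finset.sum_le_sum
  intro c _
  rw [Finset.card_product, Finset.card_product, Finset.card_singleton, one_mul,
    Fintype.card_piFinset]
  apply le_of_eq
  unfold wt gdk
  rw [← Finset.prod_coe_sort S (fun P => {v | Good (md P c) v}.ncard)]
  congr 1
  · apply Finset.prod_congr rfl
    intro P _
    rw [Set.ncard_eq_toFinset_card _ (Set.toFinite _)]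
  · rw [Set.ncard_eq_toFinset_card _ (Set.toFinite _)]

end Tuples

section OneClass

variable {F : Type} [Field F]

theorem one_mem_G3 (d : Fin 3 → ℤ) : (1 : Matrix (Fin 3) (Fin 3) F[X]) ∈ G3 d := by
  refine ⟨by simp, ?_⟩
  intro i j h
  by_cases hij : i = j
  · subst hij
    simp
  · exact absurd (Matrix.one_apply_ne hij) h

theorem card_ne_zero_sub {A : Type} [Zero A] [Finite A] :
    Nat.card {x : A // x ≠ 0} = Nat.card A - 1 := by
  classical
  have := Fintype.ofFinite A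
  rw [Nat.card_eq_fintype_card, Nat.card_eq_fintype_card]
  have h : Fintype.card {x : A // x ≠ 0} = ((Finset.univ : Finset A).erase 0).card := by
    rw [Fintype.card_subtype]
    congr 1
    ext x
    simp
  rw [h, Finset.card_erase_of_mem (Finset.mem_univ _), Finset.card_univ]

open Classical in
theorem one_class [Finite F] (hLOP : LOPStmt) (hLOI : LOIStmt) (hMPL : MPLStmt) (hFIB : FIBStmt)
    (hGPR : GPRStmt) (hETA : ETAStmt) (hTRV : TRVStmt) (hSEC : SECStmt) (hGRC : GRCStmt)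
    (hCNV : CNVStmt) (h2 : (2 : F) ≠ 0) {n N s : ℕ} {S : Finset F[X]} {f : F[X] × F[X] × F[X]}
    (hf : f ∈ El F n) (hN : 1 ≤ N) (hS : ∀ P ∈ S, P.Monic ∧ Irreducible P) (hst : StB f s)
    (c₀ : Fin 10 → F[X]) (hc₀ : mp c₀ ∈ SelSet f)
    (hnt : ¬ ∃ g, Eqv g (FO (AVS.kf f).1 (AVS.kf f).2.1 (AVS.kf f).2.2) (mp c₀)) :
    (∏ P ∈ S, Bx P N f) * Bx X N (AVS.finf n f) ≤ s * ((Nat.card F : ℝ) - 1) *
      ∑ α ∈ Finset.range (n + 1), ∑ β ∈ Finset.range (n + 1),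
        ((∑ᶠ c ∈ VC n α β f c₀, wt n α β S c : ℕ) : ℝ) /
          (G3 (dv α β) : Set (Matrix (Fin 3) (Fin 3) F[X])).ncard := by
  obtain ⟨D⟩ := dat_exists hLOP hLOI h2 n N S f hf hN hS c₀ hc₀
  have h1 : ∀ q : Qt D, ∃ (α β : ℕ) (g : Matrix (Fin 3) (Fin 3) (RatFunc F)), g.det ≠ 0 ∧
      ∀ γ ∈ (G3 (dv α β) : Set (Matrix (Fin 3) (Fin 3) F[X])), ∃ c' ∈ Vd n (dv α β),
        Eqv (g * γ.map (algebraMap F[X] (RatFunc F))) (mp c₀) (mp c') ∧
        (∀ P ∈ S, ∀ l : F[X], ¬ P ∣ l → ∃ z,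
          Mk (AVS.IP P) (algebraMap F[X] (RatFunc F) P) (gP D q P)
            (algebraMap F[X] (RatFunc F) l • vP D q P) (g * γ.map (algebraMap F[X] (RatFunc F)))
              z ∧ Good (md P c') (rdP P z)) ∧
        ∀ l : F, l ≠ 0 → ∃ z,
          Mk (AVS.Iinf F) (RatFunc.X)⁻¹ (D.gi q.2) (algebraMap F[X] (RatFunc F) (C l) • D.vi q.2)
            (g * γ.map (algebraMap F[X] (RatFunc F)) * (Dg (dv α β))⁻¹) z ∧
          Good (md X (cinf n (dv α β) c')) (rdI z) := by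
    intro q
    apply hMPL F h2 n c₀ S (gP D q) (vP D q) (D.gi q.2) (D.vi q.2) hS _ (D.hKPi q.2)
    intro P hP
    have e1 := gP_eq D q ⟨P, hP⟩
    have e3 := vP_eq D q ⟨P, hP⟩
    simp only at e1 e3
    rw [e1, e3]
    exact D.hKP ⟨P, hP⟩ (q.1 ⟨P, hP⟩)
  choose al be G hG0 hG using h1
  have hsel : ∀ (g : Matrix (Fin 3) (Fin 3) (RatFunc F)) (c' : Fin 10 → F[X]),
      Eqv g (mp c₀) (mp c') → mp c' ∈ SelSet f := fun g c' h =>
    (hSEC F h2 f).2.1 _ _ hc₀ ⟨g, h⟩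
  have hle : ∀ q, al q ≤ n ∧ be q ≤ n := by
    intro q
    obtain ⟨c', hc', hE, -, -⟩ := hG q 1 (one_mem_G3 _)
    apply hTRV F h2 n (al q) (be q) f hf c' hc' (hsel _ _ hE)
    rintro ⟨g, hg⟩
    exact hnt ⟨_, hg.trans hE.symm⟩
  have hfin : ∀ α β, α ≤ n → β ≤ n → (VC n α β f c₀).Finite := fun α β hα hβ =>
    (hCNV F n α β hα hβ).1.subset (fun c hc => hc.1.1)
  have hRl : ∀ (α β : ℕ) (t : (Qt D × Lt S) × Matrix (Fin 3) (Fin 3) F[X]), al t.1.1 = α →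
      be t.1.1 = β → t.2 ∈ (G3 (dv α β) : Set (Matrix (Fin 3) (Fin 3) F[X])) →
      ∃ y, Rl D G α β t y := by
    rintro _ _ t rfl rfl hγ
    obtain ⟨c', hc', hE, hm, hi⟩ := hG t.1.1 t.2 hγ
    have h3 : ∀ P : {P // P ∈ S}, ∃ z, Mk (AVS.IP P.1) (algebraMap F[X] (RatFunc F) P.1)
        (gP D t.1.1 P.1) (algebraMap F[X] (RatFunc F) (lf t.1.2 P.1) • vP D t.1.1 P.1)
        (G t.1.1 * t.2.map (algebraMap F[X] (RatFunc F))) z ∧ Good (md P.1 c') (rdP P.1 z) :=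
      fun P => hm P.1 P.2 (lf t.1.2 P.1) (lf_dvd t.1.2 P)
    choose z hz hz' using h3
    obtain ⟨zi, hzi, hzi'⟩ := hi t.1.2.2.1 t.1.2.2.2
    exact ⟨(c', (fun P => rdP P.1 (z P), rdI zi)),
      ⟨⟨hETA F h2 n _ f hf c' hc' (hsel _ _ hE), _, hE⟩, hE, fun P => ⟨z P, hz P, rfl, hz' P⟩,
        zi, hzi, rfl, hzi'⟩⟩
  have hfA : ∀ P : {P // P ∈ S}, Finite (AdjoinRoot P.1) := fun P =>
    (card_adj (hS P.1 P.2).1).1
  have hfL : Finite (Lt S) := by
    have : ∀ P : {P // P ∈ S}, Finite {x : AdjoinRoot P.1 // x ≠ 0} := fun P => inferInstance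
    infer_instance
  have hFL := Fintype.ofFinite (Lt S)
  have hFQ : Fintype (Qt D) := Fintype.ofFinite _
  have hGpos : ∀ α β, 0 < (G3 (dv α β) : Set (Matrix (Fin 3) (Fin 3) F[X])).ncard := fun α β =>
    (Set.ncard_pos (hGRC F |>.1 α β)).mpr ⟨1, one_mem_G3 _⟩
  have hq1 : 1 ≤ Nat.card F := Nat.card_pos
  have key : ∀ α β, α ≤ n → β ≤ n →
      (((Finset.univ.filter fun q : Qt D => al q = α ∧ be q = β).card : ℕ) : ℝ) *
        (Nat.card (Lt S) : ℝ) ≤ s * ((Nat.card F : ℝ) - 1) *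
        (((∑ᶠ c ∈ VC n α β f c₀, wt n α β S c : ℕ) : ℝ) /
          (G3 (dv α β) : Set (Matrix (Fin 3) (Fin 3) F[X])).ncard) := by
    intro α β hα hβ
    have h4 := count hFIB hGPR D hc₀ hst G hG0 α β hS (hfin α β hα hβ)
      (((Finset.univ.filter fun q : Qt D => al q = α ∧ be q = β) ×ˢ
        (Finset.univ : Finset (Lt S))) ×ˢ ((hGRC F).1 α β).toFinset)
      (by
        intro t ht
        rw [Finset.mem_product, Finset.mem_product, Finset.mem_filter,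
          Set.Finite.mem_toFinset] at ht
        exact hRl α β t ht.1.1.2.1 ht.1.1.2.2 ht.2)
      (by
        intro t ht
        rw [Finset.mem_product, Set.Finite.mem_toFinset] at ht
        exact ht.2.1)
    rw [Finset.card_product, Finset.card_product, Finset.card_univ, ← Nat.card_eq_fintype_card,
      ← Set.ncard_eq_toFinset_card _ ((hGRC F).1 α β)] at h4
    have h5 : (((Finset.univ.filter fun q : Qt D => al q = α ∧ be q = β).card : ℕ) : ℝ) *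
        (Nat.card (Lt S) : ℝ) * (G3 (dv α β) : Set (Matrix (Fin 3) (Fin 3) F[X])).ncard ≤
        ((Nat.card F : ℝ) - 1) * s * ((∑ᶠ c ∈ VC n α β f c₀, wt n α β S c : ℕ) : ℝ) := by
      rw [← Nat.cast_one, ← Nat.cast_sub hq1]
      exact_mod_cast h4
    have h6 : (0 : ℝ) < ((G3 (dv α β) : Set (Matrix (Fin 3) (Fin 3) F[X])).ncard : ℝ) := by
      exact_mod_cast hGpos α β
    rw [← mul_div_assoc, le_div_iff₀ h6]
    linarith
  have hsum : (Nat.card (Qt D) : ℝ) * (Nat.card (Lt S) : ℝ) ≤ s * ((Nat.card F : ℝ) - 1) *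
      ∑ α ∈ Finset.range (n + 1), ∑ β ∈ Finset.range (n + 1),
        ((∑ᶠ c ∈ VC n α β f c₀, wt n α β S c : ℕ) : ℝ) /
          (G3 (dv α β) : Set (Matrix (Fin 3) (Fin 3) F[X])).ncard := by
    have h7 : Nat.card (Qt D) = ∑ α ∈ Finset.range (n + 1), ∑ β ∈ Finset.range (n + 1),
        (Finset.univ.filter fun q : Qt D => al q = α ∧ be q = β).card := by
      rw [← Finset.sum_product', Nat.card_eq_fintype_card, ← Finset.card_univ,
        Finset.card_eq_sum_card_fiberwise (f := fun q : Qt D => (al q, be q))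
          (t := Finset.range (n + 1) ×ˢ Finset.range (n + 1))]
      · apply Finset.sum_congr rfl
        rintro ⟨a, b⟩ _
        congr 1
        ext q
        simp
      · intro q _
        rw [Finset.mem_coe, Finset.mem_product, Finset.mem_range, Finset.mem_range]
        exact ⟨Nat.lt_succ_of_le (hle q).1, Nat.lt_succ_of_le (hle q).2⟩
    rw [h7, Finset.mul_sum]
    push_cast
    rw [Finset.sum_mul]
    apply Finset.sum_le_sum
    intro α hα
    rw [Finset.sum_mul, Finset.mul_sum]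
    apply Finset.sum_le_sum
    intro β hβ
    have h8 := key α β (Nat.lt_succ_iff.mp (Finset.mem_range.mp hα))
      (Nat.lt_succ_iff.mp (Finset.mem_range.mp hβ))
    exact h8
  refine le_trans ?_ hsum
  have hcX : Nat.card (AdjoinRoot (X : F[X])) = Nat.card F := by
    rw [(card_adj monic_X).2, natDegree_X, pow_one]
  have hcQ : (Nat.card (Qt D) : ℝ) = (∏ P : {P // P ∈ S}, (D.M P : ℝ)) * D.Mi := by
    rw [Nat.card_prod, Nat.card_pi, Nat.card_fin]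
    push_cast
    congr 1
    apply Finset.prod_congr rfl
    intro P _
    rw [Nat.card_fin]
  have hcL : (Nat.card (Lt S) : ℝ) =
      (∏ P : {P // P ∈ S}, ((Nat.card (AdjoinRoot P.1) : ℝ) - 1)) * ((Nat.card F : ℝ) - 1) := by
    rw [Nat.card_prod, Nat.card_pi, card_ne_zero_sub]
    push_cast
    rw [Nat.cast_sub hq1, Nat.cast_one]
    congr 1
    apply Finset.prod_congr rfl
    intro P _
    rw [card_ne_zero_sub, Nat.cast_sub, Nat.cast_one]
    exact Nat.card_pos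
  have e : (Nat.card (Qt D) : ℝ) * (Nat.card (Lt S) : ℝ) =
      (∏ P : {P // P ∈ S}, (((Nat.card (AdjoinRoot P.1) : ℝ) - 1) * D.M P)) *
        (((Nat.card F : ℝ) - 1) * D.Mi) := by
    rw [hcQ, hcL, Finset.prod_mul_distrib]
    ring
  rw [e, ← Finset.prod_coe_sort S (fun P => Bx P N f)]
  have hB2 := D.hBxi
  rw [hcX] at hB2
  refine mul_le_mul ?_ hB2 (Bx_nonneg monic_X _ _) ?_
  · apply Finset.prod_le_prod
    · intro P _
      exact Bx_nonneg (hS P.1 P.2).1 _ _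
    · intro P _
      exact D.hBx P
  · apply Finset.prod_nonneg
    intro P _
    have := one_le_card (hS P.1 P.2).1
    apply mul_nonneg
    · linarith
    · positivity

end OneClass

open Classical in
/-- WCT: the counting inequality for one curve. -/
theorem wct_thm (hKYS3 : KYS3Stmt) (hLOP : LOPStmt) (hLOI : LOIStmt) (hMPL : MPLStmt)
    (hFIB : FIBStmt) (hGPR : GPRStmt) (hETA : ETAStmt) (hTRV : TRVStmt) (hSEC : SECStmt)
    (hGRC : GRCStmt) (hCNV : CNVStmt) : WCTStmt := by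
  intro F _ _ h2 n N s S f hf hN hS hst
  set triv : Sel3 f → Prop := fun ξ => ∃ c : SelSet f, Quotient.mk (selSetoid f) c = ξ ∧
    ∃ g, Eqv g (FO (AVS.kf f).1 (AVS.kf f).2.1 (AVS.kf f).2.2) c.1 with htriv
  have h1 : ∀ ξ : {ξ : Sel3 f // ¬ triv ξ}, ∃ (p : ℕ × ℕ) (c : Fin 10 → F[X])
      (hc : mp c ∈ SelSet f), p.1 ≤ n ∧ p.2 ≤ n ∧ c ∈ Vd n (dv p.1 p.2) ∧
      Quotient.mk (selSetoid f) ⟨mp c, hc⟩ = ξ.1 ∧
      ¬ ∃ g, Eqv g (FO (AVS.kf f).1 (AVS.kf f).2.1 (AVS.kf f).2.2) (mp c) := by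
    rintro ⟨ξ, hξ⟩
    obtain ⟨⟨c, hc⟩, rfl⟩ := Quotient.exists_rep ξ
    obtain ⟨α, β, c', g, hc', hE, hs⟩ := hKYS3 F h2 n f hf.1 c hc
    have h3 : Quotient.mk (selSetoid f) ⟨mp c', hs⟩ = Quotient.mk (selSetoid f) ⟨c, hc⟩ :=
      Quotient.sound (s := selSetoid f) ⟨g⁻¹, hE.symm⟩
    have h4 : ¬ ∃ g, Eqv g (FO (AVS.kf f).1 (AVS.kf f).2.1 (AVS.kf f).2.2) (mp c') := by
      intro h
      exact hξ ⟨⟨mp c', hs⟩, h3, h⟩
    obtain ⟨h5, h6⟩ := hTRV F h2 n α β f hf c' hc' hs h4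
    exact ⟨(α, β), c', hs, h5, h6, hc', h3, h4⟩
  choose p c hc hp1 hp2 hVd hcl hnt using h1
  have hne : ∀ ξ ξ' : {ξ : Sel3 f // ¬ triv ξ}, (∃ g, Eqv g (mp (c ξ)) (mp (c ξ'))) → ξ = ξ' := by
    intro ξ ξ' h
    apply Subtype.ext
    rw [← hcl ξ, ← hcl ξ']
    exact Quotient.sound (s := selSetoid f) h
  have hVfin : ∀ α β, α ≤ n → β ≤ n → (VJ n (dv α β) f).Finite := fun α β hα hβ =>
    (hCNV F n α β hα hβ).1.subset (fun c hc => hc.1)
  have hfinA : Finite {ξ : Sel3 f // ¬ triv ξ} := by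
    have h3 : (⋃ q ∈ ((Finset.range (n + 1) ×ˢ Finset.range (n + 1) : Finset (ℕ × ℕ)) :
        Set (ℕ × ℕ)), (Vd n (dv q.1 q.2) : Set (Fin 10 → F[X]))).Finite := by
      apply Set.Finite.biUnion (Finset.finite_toSet _)
      intro q hq
      rw [Finset.mem_coe, Finset.mem_product, Finset.mem_range, Finset.mem_range] at hq
      exact (hCNV F n q.1 q.2 (by omega) (by omega)).1
    have := h3.to_subtype
    apply Finite.of_injective (β := (⋃ q ∈ ((Finset.range (n + 1) ×ˢ Finset.range (n + 1) :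
      Finset (ℕ × ℕ)) : Set (ℕ × ℕ)), (Vd n (dv q.1 q.2) : Set (Fin 10 → F[X])) : Set _))
      (fun ξ => ⟨c ξ, by
        rw [Set.mem_iUnion₂]
        refine ⟨p ξ, ?_, hVd ξ⟩
        rw [Finset.mem_coe, Finset.mem_product, Finset.mem_range, Finset.mem_range]
        have := hp1 ξ
        have := hp2 ξ
        omega⟩)
    intro ξ ξ' h
    have h4 := congrArg Subtype.val h
    simp only at h4
    apply hne
    rw [h4]
    exact ⟨1, Eqv.refl _⟩
  have hsub : Subsingleton {ξ : Sel3 f // triv ξ} := by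
    constructor
    rintro ⟨ξ, a, rfl, g, hg⟩ ⟨ξ', a', rfl, g', hg'⟩
    apply Subtype.ext
    exact Quotient.sound (s := selSetoid f) ⟨_, hg.symm.trans hg'⟩
  have hfin : Finite (Sel3 f) := Finite.of_equiv _ (Equiv.sumCompl triv)
  refine ⟨hfin, ?_⟩
  have hcard : (Nat.card (Sel3 f) : ℝ) - 1 ≤ Nat.card {ξ : Sel3 f // ¬ triv ξ} := by
    have h3 : Nat.card (Sel3 f) = Nat.card {ξ : Sel3 f // triv ξ} +
        Nat.card {ξ : Sel3 f // ¬ triv ξ} := by
      rw [← Nat.card_congr (Equiv.sumCompl triv), Nat.card_sum]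
    have h4 : Nat.card {ξ : Sel3 f // triv ξ} ≤ 1 := Finite.card_le_one_iff_subsingleton.mpr hsub
    have h5 : Nat.card (Sel3 f) ≤ 1 + Nat.card {ξ : Sel3 f // ¬ triv ξ} := by omega
    have h6 : (Nat.card (Sel3 f) : ℝ) ≤ 1 + Nat.card {ξ : Sel3 f // ¬ triv ξ} := by
      exact_mod_cast h5
    linarith
  have hB0 : 0 ≤ (∏ P ∈ S, Bx P N f) * Bx X N (AVS.finf n f) := by
    apply mul_nonneg
    · exact Finset.prod_nonneg fun P hP => Bx_nonneg (hS P hP).1 _ _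
    · exact Bx_nonneg monic_X _ _
  have hFA := Fintype.ofFinite {ξ : Sel3 f // ¬ triv ξ}
  have hq1 : (1 : ℝ) ≤ Nat.card F := by
    have : 1 ≤ Nat.card F := Nat.card_pos
    exact_mod_cast this
  refine (mul_le_mul_of_nonneg_right hcard hB0).trans ?_
  have hone : ∀ ξ : {ξ : Sel3 f // ¬ triv ξ}, (∏ P ∈ S, Bx P N f) * Bx X N (AVS.finf n f) ≤
      s * ((Nat.card F : ℝ) - 1) *
      ∑ α ∈ Finset.range (n + 1), ∑ β ∈ Finset.range (n + 1),
        ((∑ᶠ b ∈ VC n α β f (c ξ), wt n α β S b : ℕ) : ℝ) /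
          (G3 (dv α β) : Set (Matrix (Fin 3) (Fin 3) F[X])).ncard := fun ξ =>
    one_class hLOP hLOI hMPL hFIB hGPR hETA hTRV hSEC hGRC hCNV h2 hf hN hS hst (c ξ) (hc ξ)
      (hnt ξ)
  have hle := Finset.sum_le_sum (fun ξ (_ : ξ ∈ (Finset.univ : Finset {ξ : Sel3 f // ¬ triv ξ})) =>
    hone ξ)
  rw [Finset.sum_const, Finset.card_univ, nsmul_eq_mul, ← Nat.card_eq_fintype_card,
    ← Finset.mul_sum] at hle
  refine hle.trans ?_
  apply mul_le_mul_of_nonneg_left _ (mul_nonneg (Nat.cast_nonneg _) (by linarith))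
  rw [Finset.sum_comm]
  apply Finset.sum_le_sum
  intro α hα
  rw [Finset.sum_comm]
  apply Finset.sum_le_sum
  intro β hβ
  have hα' := Nat.lt_succ_iff.mp (Finset.mem_range.mp hα)
  have hβ' := Nat.lt_succ_iff.mp (Finset.mem_range.mp hβ)
  have hV := hVfin α β hα' hβ'
  have hVC : ∀ ξ : {ξ : Sel3 f // ¬ triv ξ}, (VC n α β f (c ξ)).Finite := fun ξ =>
    hV.subset fun _ h => h.1
  rw [← Finset.sum_div]
  apply div_le_div_of_nonneg_right _ (Nat.cast_nonneg _)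
  rw [finsum_mem_eq_finite_toFinset_sum _ hV]
  have h8 : ∑ ξ : {ξ : Sel3 f // ¬ triv ξ}, (∑ᶠ b ∈ VC n α β f (c ξ), wt n α β S b) ≤
      ∑ c ∈ hV.toFinset, wt n α β S c := by
    rw [Finset.sum_congr rfl fun ξ _ => finsum_mem_eq_finite_toFinset_sum _ (hVC ξ),
      ← Finset.sum_biUnion]
    · apply Finset.sum_le_sum_of_subset
      intro a ha
      rw [Finset.mem_biUnion] at ha
      obtain ⟨ξ, -, h9⟩ := ha
      rw [Set.Finite.mem_toFinset] at h9 ⊢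
      exact h9.1
    · intro ξ _ ξ' _ hξ
      rw [Function.onFun, Finset.disjoint_left]
      intro a ha ha'
      rw [Set.Finite.mem_toFinset] at ha ha'
      obtain ⟨-, g, hg⟩ := ha
      obtain ⟨-, g', hg'⟩ := ha'
      exact hξ (hne ξ ξ' ⟨_, hg.trans hg'.symm⟩)
  have h9 : ((∑ ξ : {ξ : Sel3 f // ¬ triv ξ}, (∑ᶠ b ∈ VC n α β f (c ξ), wt n α β S b) : ℕ) : ℝ) ≤
      ((∑ c ∈ hV.toFinset, wt n α β S c : ℕ) : ℝ) := by exact_mod_cast h8
  unfold wt at h9 ⊢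
  push_cast at h9 ⊢
  exact h9

end Pool.Agent.H15.AV3B
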